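import Pool.Agent.helper5.PR.SpecZ

/-!
# Project pr, module Z-MAL1: Mal'cev's theorem (a common eigenvector of a subgroup of finite index)
-/

set_option autoImplicit false

namespace Pool.Agent.PR

open Matrix Module

theorem Z_MAL1_der (Q : Type) [Group Q] (k : ℕ) :
    (derivedSeries (commutator Q) k).map (commutator Q).subtype ≤ derivedSeries Q (k + 1) := by
  induction k with
  | zero =>
    rw [derivedSeries_zero, ← MonoidHom.range_eq_map, Subgroup.range_subtype, derivedSeries_one]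
  | succ k ih =>
    rw [derivedSeries_succ, Subgroup.map_commutator, derivedSeries_succ Q (k + 1)]
    exact Subgroup.commutator_mono ih ih

theorem Z_MAL1_der_bot (Q : Type) [Group Q] (k : ℕ) (h : derivedSeries Q (k + 1) = ⊥) :
    derivedSeries (commutator Q) k = ⊥ := by
  have h1 := Z_MAL1_der Q k
  rw [h, le_bot_iff] at h1
  exact (Subgroup.map_eq_bot_iff_of_injective _ (Subgroup.subtype_injective _)).mp h1

/-- restriction to an invariant subspace -/
def Z_MAL1_res {K V Q : Type} [Field K] [AddCommGroup V] [Module K V] [Group Q] (ρ : Q →* Module.End K V)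
    (P₁ : Subgroup Q) (W : Submodule K V) (hW : ∀ g ∈ P₁, ∀ w ∈ W, ρ g w ∈ W) : P₁ →* Module.End K W where
  toFun g := (ρ (g : Q)).restrict (hW g g.2)
  map_one' := by
    ext w
    simp [LinearMap.restrict_apply]
  map_mul' g h := by
    ext w
    simp [LinearMap.restrict_apply]

theorem Z_MAL1_res_apply {K V Q : Type} [Field K] [AddCommGroup V] [Module K V] [Group Q] (ρ : Q →* Module.End K V)
    (P₁ : Subgroup Q) (W : Submodule K V) (hW : ∀ g ∈ P₁, ∀ w ∈ W, ρ g w ∈ W) (g : P₁) (w : W) :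
    ((Z_MAL1_res ρ P₁ W hW g w : W) : V) = ρ (g : Q) (w : V) := rfl

theorem Z_MAL1_ind (hFC : Z_FC_stmt) (hSTAB : Z_STAB_stmt) (n : ℕ) :
    ∀ (K V : Type) [Field K] [IsAlgClosed K] [AddCommGroup V] [Module K V] [FiniteDimensional K V]
    [Nontrivial V] (Q : Type) [Group Q], derivedSeries Q n = ⊥ → ∀ ρ : Q →* Module.End K V,
    ∃ G₁ : Subgroup Q, G₁.FiniteIndex ∧ ∃ v : V, v ≠ 0 ∧ EigV ρ G₁ v := by
  induction n with
  | zero =>
    intro K V _ _ _ _ _ _ Q _ h ρ
    obtain ⟨v, hv⟩ := exists_ne (0 : V)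
    refine ⟨⊤, inferInstance, v, hv, ?_⟩
    intro g _
    rw [derivedSeries_zero] at h
    have hg : g = 1 := by
      have : g ∈ (⊤ : Subgroup Q) := Subgroup.mem_top g
      rw [h] at this
      exact Subgroup.mem_bot.mp this
    refine ⟨1, ?_⟩
    rw [hg, map_one]
    simp
  | succ n ih =>
    intro K V _ _ _ _ _ _ Q _ h ρ
    obtain ⟨G₀, hG₀, v₀, hv₀, he₀⟩ := ih K V (commutator Q) (Z_MAL1_der_bot Q n h) (ρ.comp (commutator Q).subtype)
    have hD₁ : (G₀.map (commutator Q).subtype).relIndex (commutator Q) ≠ 0 := by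
      rw [Subgroup.relIndex, Subgroup.subgroupOf, Subgroup.comap_map_eq_self_of_injective (Subgroup.subtype_injective _)]
      exact hG₀.index_ne_zero
    obtain ⟨P₁, H, W, hP₁, hHD, hHi, hW0, hWinv, hWs⟩ := hSTAB K V Q ρ (commutator Q)
      (G₀.map (commutator Q).subtype) inferInstance (Subgroup.map_subtype_le G₀) hD₁ ⟨v₀, hv₀, by
        rintro g ⟨x, hx, rfl⟩
        exact he₀ x hx⟩
    have : Nontrivial W := (Submodule.nontrivial_iff_ne_bot).mpr hW0
    have hrel : (H.subgroupOf P₁ ⊓ commutator P₁).relIndex (commutator P₁) ≠ 0 := by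
      rw [Subgroup.inf_relIndex_right]
      intro h0
      rw [Subgroup.subgroupOf, Subgroup.relIndex_comap] at h0
      have hle : (commutator P₁).map P₁.subtype ≤ commutator Q := by
        rw [commutator_def, Subgroup.map_commutator, commutator_def]
        exact Subgroup.commutator_mono le_top le_top
      exact hHi (Subgroup.relIndex_eq_zero_of_le_right hle h0)
    obtain ⟨G₁, hG₁, v, hv, he⟩ := hFC K W P₁ (Z_MAL1_res ρ P₁ W hWinv) (H.subgroupOf P₁ ⊓ commutator P₁)
      inf_le_right hrel (by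
        intro g hg
        have hgH : (g : Q) ∈ H := Subgroup.mem_subgroupOf.mp hg.1
        obtain ⟨c, hc⟩ := hWs g hgH
        refine ⟨c, ?_⟩
        ext w
        rw [Z_MAL1_res_apply, hc w w.2]
        simp)
    refine ⟨G₁.map P₁.subtype, ⟨?_⟩, (v : V), ?_, ?_⟩
    · rw [Subgroup.index_map_subtype]
      exact mul_ne_zero hG₁.index_ne_zero hP₁.index_ne_zero
    · simpa using hv
    · rintro g ⟨x, hx, rfl⟩
      obtain ⟨c, hc⟩ := he x hx
      refine ⟨c, ?_⟩
      have h2 := congrArg (fun w : W => (w : V)) hc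
      simpa [Z_MAL1_res_apply] using h2

theorem Z_MAL1 (hFC : Z_FC_stmt) (hSTAB : Z_STAB_stmt) : Z_MAL1_stmt := by
  intro K V _ _ _ _ _ _ Q _ hQ ρ
  obtain ⟨n, hn⟩ := hQ
  exact Z_MAL1_ind hFC hSTAB n K V Q hn ρ

end Pool.Agent.PR
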